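import Mathlib
import Pool.Agent.MZ.Exact
import Pool.Agent.MZ.Eis
import Pool.Agent.MZ.Ball

open Matrix Matrix.SpecialLinearGroup OnePoint CongruenceSubgroup PowerSeries
open scoped MatrixGroups
open Pool.Agent.MZ

namespace Pool.Agent.Results.MP_6b77c8_nt.ExactContent

/-- Let `p` be an odd prime, `N ≥ 1` prime to `p`, `φ` a `ℤ_p`-valued modular symbol for `Γ₀(N)`
of sign `ε = ±1` with `T_l φ = a_l φ` for all primes `l ∤ N`, and `α` the unit root of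
`x² - a_p x + p`.
(1) Each tame branch `L_ψ ∈ ℤ_p[[T]]` of the Mazur-Swinnerton-Dyer `p`-adic `L`-function exists
and is unique; the branch of `ψ = 1` is `IsPadicL`.
(2) For all `K`: `p^K` divides all branches with `ψ(-1) = ε` if and only if `p^K` divides all
periods `φ{∞, γ∞}` with `γ ∈ Γ₁(N)`.
(2') The same holds on every ball: for `m ≥ 1` and `c` prime to `p`, `p^K` divides the measures
`msd φ p α n b` of all balls `b + p^(n+1) ℤ_p` contained in `c + p^m ℤ_p` if and only if `p^K`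
divides all periods `φ{∞, γ∞}` with `γ ∈ Γ₁(N)`.
(3) If some period with `γ ∈ Γ₀(N)` is a unit, or if `φ` is nonzero mod `p` and `a_l ≠ l + 1`
mod `p` for some prime `l = 1` mod `N`, then some period with `γ ∈ Γ₁(N)` is a unit.
(4) If `p = 3` there is only one branch with `ψ(-1) = ε`, so for it the equivalence of (2) holds
alone. -/
theorem result (p : ℕ) [Fact p.Prime] (hp2 : p ≠ 2) (N : ℕ) (hN0 : N ≠ 0) (hpN : ¬ p ∣ N)
    (φ : ModSym N ℤ_[p]) (ε : ℤ_[p]) (hε : ε = 1 ∨ ε = -1) (hs : φ.HasSign ε)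
    (a : ℕ → ℤ_[p]) (hecke : ∀ l : ℕ, l.Prime → ¬ l ∣ N → φ.HeckeEigen l (a l))
    (α : ℤ_[p]ˣ) (hα : (α : ℤ_[p]) ^ 2 - a p * α + p = 0) :
    ((∀ ψ : DirichletCharacter ℤ_[p] p, ∃! L : PowerSeries ℤ_[p], IsPadicLBr φ p α ψ L) ∧
      ∀ L : PowerSeries ℤ_[p], IsPadicLBr φ p α 1 L ↔ IsPadicL φ p α L) ∧
    (∀ K : ℕ, (∀ ψ : DirichletCharacter ℤ_[p] p, ψ (-1) = ε → ∀ L : PowerSeries ℤ_[p],
        IsPadicLBr φ p α ψ L → ∀ i, (p : ℤ_[p]) ^ K ∣ coeff i L) ↔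
      ∀ γ ∈ Gamma1 N, (p : ℤ_[p]) ^ K ∣ φ.val ∞ (mapGL ℚ γ • ∞)) ∧
    (∀ (K m : ℕ) (c : ℤ), 1 ≤ m → ¬ (p : ℤ) ∣ c →
      ((∀ (n : ℕ) (b : ℤ), m ≤ n + 1 → (p : ℤ) ^ m ∣ b - c → (p : ℤ_[p]) ^ K ∣ msd φ p α n b) ↔
        ∀ γ ∈ Gamma1 N, (p : ℤ_[p]) ^ K ∣ φ.val ∞ (mapGL ℚ γ • ∞))) ∧
    (((∃ γ ∈ Gamma0 N, ¬ (p : ℤ_[p]) ∣ φ.val ∞ (mapGL ℚ γ • ∞)) ∨
      ((∃ x y : OnePoint ℚ, ¬ (p : ℤ_[p]) ∣ φ.val x y) ∧
        ∃ l : ℕ, l.Prime ∧ l ≡ 1 [MOD N] ∧ ¬ l ∣ N ∧ ¬ (p : ℤ_[p]) ∣ a l - (l + 1))) →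
      ∃ γ ∈ Gamma1 N, ¬ (p : ℤ_[p]) ∣ φ.val ∞ (mapGL ℚ γ • ∞)) ∧
    (p = 3 → (∃! ψ : DirichletCharacter ℤ_[p] p, ψ (-1) = ε) ∧
      ∀ ψ : DirichletCharacter ℤ_[p] p, ψ (-1) = ε → ∀ L : PowerSeries ℤ_[p],
        IsPadicLBr φ p α ψ L → ∀ K : ℕ, (∀ i, (p : ℤ_[p]) ^ K ∣ coeff i L) ↔
          ∀ γ ∈ Gamma1 N, (p : ℤ_[p]) ^ K ∣ φ.val ∞ (mapGL ℚ γ • ∞)) := by
  have hp : p.Prime := Fact.out
  have h2 : ∀ K : ℕ, (∀ ψ : DirichletCharacter ℤ_[p] p, ψ (-1) = ε → ∀ L : PowerSeries ℤ_[p],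
        IsPadicLBr φ p α ψ L → ∀ i, (p : ℤ_[p]) ^ K ∣ coeff i L) ↔
      ∀ γ ∈ Gamma1 N, (p : ℤ_[p]) ^ K ∣ φ.val ∞ (mapGL ℚ γ • ∞) :=
    fun K => contentBr hN0 hp2 hpN φ a hecke α hα hε hs K
  refine ⟨⟨existsUnique_padicLBr hp2 φ α (a p) (hecke p hp hpN) hα, ?_⟩, h2,
    fun K m c hm hc => ball_content hN0 hp2 hpN φ a hecke α hα K hc hm, ?_, ?_⟩
  · intro L
    simp only [IsPadicLBr, IsPadicL, thetaBr_one φ hp]
  · intro h
    obtain ⟨γ, hγ, hne⟩ : ∃ γ ∈ Gamma0 N, ¬ (p : ℤ_[p]) ∣ φ.val ∞ (mapGL ℚ γ • ∞) := by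
      rcases h with h | ⟨⟨x, y, h⟩, l, hl, hl1, hlN, hla⟩
      · exact h
      · exact exists_period φ ⟨x, y, h⟩ hl hl1 (hecke l hl hlN) hla
    obtain ⟨n, b, hb, hnb⟩ := main_padic hN0 hp2 hpN φ a hecke α hα hγ hne
    by_contra hcon
    push Not at hcon
    have h3 := (periods_content hN0 hp2 hpN φ a hecke α hα 1).2 (by
      intro γ hγ
      rw [pow_one]
      exact hcon γ hγ) n b hb
    rw [pow_one] at h3
    exact hnb h3
  · intro hp3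
    have huniq : ∀ ψ ψ' : DirichletCharacter ℤ_[p] p, ψ (-1) = ε → ψ' (-1) = ε → ψ = ψ' := by
      intro ψ ψ' h h'
      apply MulChar.ext
      intro u
      have h1 : ∀ q : ℕ, q = 3 → ∀ v : (ZMod q)ˣ, (v : ZMod q) = 1 ∨ (v : ZMod q) = -1 := by
        rintro q rfl
        decide
      rcases h1 p hp3 u with h4 | h4
      · rw [h4, map_one, map_one]
      · rw [h4, h, h']
    have hex : ∃ ψ : DirichletCharacter ℤ_[p] p, ψ (-1) = ε := by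
      rcases hε with he | he
      · exact ⟨1, by rw [he]; exact MulChar.one_apply isUnit_neg_one⟩
      · have hne : (-1 : ZMod p) ≠ 1 := by
          have h1 : ∀ q : ℕ, q = 3 → (-1 : ZMod q) ≠ 1 := by
            rintro q rfl
            decide
          exact h1 p hp3
        obtain ⟨ψ, hψ⟩ := DirichletCharacter.exists_apply_ne_one_of_hasEnoughRootsOfUnity
          ℤ_[p] hne
        refine ⟨ψ, ?_⟩
        have h3 : ψ (-1) * ψ (-1) = 1 := by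
          rw [← map_mul]
          simp
        rw [he]
        exact (mul_self_eq_one_iff.1 h3).resolve_left hψ
    obtain ⟨ψ, hψ⟩ := hex
    refine ⟨⟨ψ, hψ, fun ψ' h' => huniq ψ' ψ h' hψ⟩, ?_⟩
    intro ψ hψ L hL K
    rw [← h2 K]
    constructor
    · intro h ψ' hψ' L' hL'
      have h5 := huniq ψ' ψ hψ' hψ
      subst h5
      have h6 := (existsUnique_padicLBr hp2 φ α (a p) (hecke p hp hpN) hα ψ').unique hL' hL
      rw [h6]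
      exact h
    · intro h
      exact h ψ hψ L hL

end Pool.Agent.Results.MP_6b77c8_nt.ExactContent
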