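import Pool.Agent.MZ.PerP

/-!
# The `μ`-invariant of the `p`-adic `L`-function of Mazur and Swinnerton-Dyer and of its even branches

Let `p` be an odd prime, let `f = ∑ a(n) q^n` be a normalised cusp form of weight two for `Γ₀(N)`,
`p ∤ N`, with integral coefficients which is an eigenform of the Hecke operators `T_l`, `l ∤ N` (for
example the newform of an elliptic curve over `ℚ`), let `p ∤ a(p)`, and let `Ω` be a real number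
such that the real parts of the periods of `2πi f(z) dz` over `Γ₁(N)` are the integral multiples of
`q Ω`, where `q` is a nonzero rational number. For every even Dirichlet character `ψ` modulo `p` there
is exactly one power series `L_ψ` with bounded coefficients over `ℚ_p` with the interpolation
property of Mazur and Swinnerton-Dyer for the characters with tame part `ψ`, and the largest
absolute value of all their coefficients is `|q|_p`. For `p = 3` there is only one even branch, the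
`3`-adic `L`-function, so its `μ`-invariant is `v_3(q)`.
-/

set_option autoImplicit false

open UpperHalfPlane CongruenceSubgroup
open scoped MatrixGroups Real

namespace Pool.Agent.Results.MP_6b77c8_nt.MSDExact

/-- The period `2πi ∫ f(z) dz` over the segment from `i` to `γ i`. -/
noncomputable def period (f : ℍ → ℂ) (γ : SL(2, ℤ)) : ℂ :=
  2 * π * Complex.I * ∫ t in (0 : ℝ)..1,
    f (ofComplex (Complex.I + t * (((γ • UpperHalfPlane.I : ℍ) : ℂ) - Complex.I))) *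
      (((γ • UpperHalfPlane.I : ℍ) : ℂ) - Complex.I)

/-- `v` is the value at `s = 1` of the entire continuation of the Dirichlet series
`∑ c(n) n^{-s}`, which converges for `Re s > 2`. -/
def IsLValue (c : ℕ → ℂ) (v : ℂ) : Prop :=
  ∃ D : ℂ → ℂ, Differentiable ℂ D ∧ (∀ s : ℂ, 2 < s.re → LSeriesHasSum c s (D s)) ∧ D 1 = v

/-- The field of algebraic numbers in `ℂ`. -/
abbrev Qbar : Type := algebraicClosure ℚ ℂ

/-- `L` is the `ψ`-branch of the `p`-adic `L`-function of Mazur and Swinnerton-Dyer of the form with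
`q`-expansion `∑ a(k) q^k`, for the period `Ω` and the unit root `α` of `x² - a(p) x + p`. -/
structure IsMSD (p : ℕ) [Fact p.Prime] (a : ℕ → ℤ) (Ω : ℝ) (α : ℤ_[p]ˣ)
    (ψ : DirichletCharacter ℤ_[p] p) (L : PowerSeries ℚ_[p]) : Prop where
  /-- `L` lies in `ℤ_p[[T]] ⊗ ℚ`. -/
  bdd : ∃ B : ℝ, ∀ i, ‖PowerSeries.coeff i L‖ ≤ B
  /-- `L(0) = (1 - α⁻¹)² L(f, 1) / Ω` if `ψ = 1`. -/
  one : ψ = 1 → ∃ r : ℚ, IsLValue (fun k => (a k : ℂ)) ((r : ℂ) * Ω) ∧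
    PowerSeries.coeff 0 L = (1 - (((α⁻¹ : ℤ_[p]ˣ) : ℤ_[p]) : ℚ_[p])) ^ 2 * (r : ℚ_[p])
  /-- `L(χ(1 + p) - 1) = α^{-(n+1)} p^{n+1} L(f, χ⁻¹, 1) / (τ(χ⁻¹) Ω)` for the characters `χ` of
  conductor `p^{n+1}` with tame part `ψ`; here `j` embeds the algebraic numbers in `ℂ_p`. -/
  chi : ∀ (n : ℕ) (χ : DirichletCharacter Qbar (p ^ (n + 1))), χ.IsPrimitive →
    ∀ j : Qbar →+* ℂ_[p], (∀ b : ℕ, b ^ (p - 1) ≡ 1 [MOD p ^ (n + 1)] →
      j (χ (b : ZMod (p ^ (n + 1)))) =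
        algebraMap ℚ_[p] ℂ_[p] ((ψ (b : ZMod p) : ℤ_[p]) : ℚ_[p])) → ∃ v : Qbar,
      IsLValue (fun k => ((χ⁻¹ (k : ZMod (p ^ (n + 1))) : Qbar) : ℂ) * (a k : ℂ))
        ((v : ℂ) * Ω * gaussSum (χ⁻¹.ringHomComp (algebraMap Qbar ℂ)) ZMod.stdAddChar /
          (p : ℂ) ^ (n + 1)) ∧
      HasSum (fun i => algebraMap ℚ_[p] ℂ_[p] (PowerSeries.coeff i L) *
          (j (χ ((1 + p : ℕ) : ZMod (p ^ (n + 1)))) - 1) ^ i)
        (algebraMap ℚ_[p] ℂ_[p] (((α⁻¹ : ℤ_[p]ˣ) : ℤ_[p]) : ℚ_[p]) ^ (n + 1) * j v)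

theorem isMSD_iff (p : ℕ) [Fact p.Prime] (a : ℕ → ℤ) (Ω : ℝ) (α : ℤ_[p]ˣ)
    (ψ : DirichletCharacter ℤ_[p] p) (L : PowerSeries ℚ_[p]) :
    IsMSD p a Ω α ψ L ↔ Pool.Agent.MZ.Per.IsMSDBr p a Ω α ψ L :=
  ⟨fun h => ⟨h.bdd, h.one, h.chi⟩, fun h => ⟨h.bdd, h.one, h.chi⟩⟩

theorem result (p : ℕ) [Fact p.Prime] (hp2 : p ≠ 2) {N : ℕ} (hN : N ≠ 0) (hpN : ¬ p ∣ N)
    (f : CuspForm (Gamma0 N) 2) (a : ℕ → ℤ)
    (ha : ∀ n, (qExpansion 1 f).coeff n = a n) (ha1 : a 1 = 1)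
    (hH : ∀ l : ℕ, l.Prime → ¬ l ∣ N → ∀ n : ℕ,
      a (l * n) + (if l ∣ n then (l : ℤ) * a (n / l) else 0) = a l * a n)
    (hord : ¬ (p : ℤ) ∣ a p) (Ω : ℝ) (hΩ : Ω ≠ 0) (q : ℚ) (hq : q ≠ 0)
    (hper : {r : ℝ | ∃ γ ∈ Gamma1 N, r = (period f γ).re} =
      {r : ℝ | ∃ k : ℤ, r = k * (q * Ω)}) :
    ∃ α : ℤ_[p]ˣ, (α : ℤ_[p]) ^ 2 - (a p : ℤ_[p]) * α + p = 0 ∧
      ∃ L : DirichletCharacter ℤ_[p] p → PowerSeries ℚ_[p],
        (∀ ψ, ψ (-1) = 1 → IsMSD p a Ω α ψ (L ψ) ∧ (∀ L', IsMSD p a Ω α ψ L' → L' = L ψ) ∧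
          (∀ i, ‖PowerSeries.coeff i (L ψ)‖ ≤ ‖(q : ℚ_[p])‖)) ∧
        (∃ ψ, ψ (-1) = 1 ∧ ∃ i, ‖PowerSeries.coeff i (L ψ)‖ = ‖(q : ℚ_[p])‖) ∧
        (p = 3 → ∃ i, ‖PowerSeries.coeff i (L 1)‖ = ‖(q : ℚ_[p])‖) := by
  obtain ⟨α, hα, L, hL, ψ₀, hψ₀, i₀, hi₀⟩ := Pool.Agent.MZ.Per.mainBr_q hN hp2 hpN
    f ha ha1 hH hord hΩ hq hper
  refine ⟨α, hα, L, fun ψ hψ => ?_, ⟨ψ₀, hψ₀, i₀, hi₀⟩, ?_⟩
  · obtain ⟨h1, h2, h3⟩ := hL ψ hψ
    exact ⟨(isMSD_iff _ _ _ _ _ _).2 h1, fun L' hL' => h2 L' ((isMSD_iff _ _ _ _ _ _).1 hL'), h3⟩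
  · intro hp3
    subst hp3
    have h1 := Pool.Agent.MZ.eq_one_of_three hψ₀
    subst h1
    exact ⟨i₀, hi₀⟩

end Pool.Agent.Results.MP_6b77c8_nt.MSDExact
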