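import Pool.Agent.MU66.Coef66
import Pool.Agent.MU66.Nonv66
import Pool.Agent.MU66.Fin66
import Pool.Agent.MU71.Cor
import Pool.Agent.MU0.Hasse
import Pool.Agent.MU0.HasseOfPrime

/-!
# The `μ`-invariants of the even branches of the `p`-adic `L`-function of an elliptic curve

Let `E` be an elliptic curve over `ℚ` with newform `f`. There are constants `C`, `p₀` such that
for every prime `p ≥ p₀` of good ordinary reduction the even branches `L_ψ` of the `p`-adic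
`L`-function of Mazur and Swinnerton-Dyer lie in `ℤ_p[[T]]` and satisfy, for every subgroup `K` of
`(ℤ/p)ˣ` which contains `-1`, with index `h`, and all exponents `e_ψ` with
`L_ψ ∈ (p^{e_ψ}, (1 + T)^{p^41} - 1)`, the inequality
`p^{∑ e_ψ} ≤ (C p log p / √h)^h`, where `ψ` runs through the characters trivial on `K`. The
exponent `41` is the same for all `E`.

No result on `L`-functions, on Hecke eigenvalues (the bound of Hasse is proved) or on the action of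
the Fricke involution is assumed.
-/

set_option autoImplicit false

open UpperHalfPlane CongruenceSubgroup Finset
open scoped MatrixGroups Real

namespace Pool.Agent.Results.MP_6b77c8_nt.MuBounds

/-- The period `2πi ∫ f(z) dz` over the segment from `i` to `γ i`. -/
noncomputable def period (f : ℍ → ℂ) (γ : SL(2, ℤ)) : ℂ :=
  2 * π * Complex.I * ∫ t in (0 : ℝ)..1,
    f (ofComplex (Complex.I + t * (((γ • UpperHalfPlane.I : ℍ) : ℂ) - Complex.I))) *
      (((γ • UpperHalfPlane.I : ℍ) : ℂ) - Complex.I)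

/-- `v` is the value at `s = 1` of the entire continuation of the Dirichlet series
`∑ c(n) n^{-s}`, which converges for `Re s > 2`. -/
def IsLValue (c : ℕ → ℂ) (v : ℂ) : Prop :=
  ∃ D : ℂ → ℂ, Differentiable ℂ D ∧ (∀ s : ℂ, 2 < s.re → LSeriesHasSum c s (D s)) ∧ D 1 = v

/-- The field of algebraic numbers in `ℂ`. -/
abbrev Qbar : Type := algebraicClosure ℚ ℂ

/-- `L` is the `ψ`-branch of the `p`-adic `L`-function of Mazur and Swinnerton-Dyer of the form with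
`q`-expansion `∑ a(k) q^k`, for the period `Ω` and the unit root `α` of `x² - a(p) x + p`. -/
structure IsMSD (p : ℕ) [Fact p.Prime] (a : ℕ → ℤ) (Ω : ℝ) (α : ℤ_[p]ˣ)
    (ψ : DirichletCharacter ℤ_[p] p) (L : PowerSeries ℚ_[p]) : Prop where
  /-- `L` lies in `ℤ_p[[T]] ⊗ ℚ`. -/
  bdd : ∃ B : ℝ, ∀ i, ‖PowerSeries.coeff i L‖ ≤ B
  /-- `L(0) = (1 - α⁻¹)² L(f, 1) / Ω` if `ψ = 1`. -/
  one : ψ = 1 → ∃ r : ℚ, IsLValue (fun k => (a k : ℂ)) ((r : ℂ) * Ω) ∧
    PowerSeries.coeff 0 L = (1 - (((α⁻¹ : ℤ_[p]ˣ) : ℤ_[p]) : ℚ_[p])) ^ 2 * (r : ℚ_[p])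
  /-- `L(χ(1 + p) - 1) = α^{-(n+1)} p^{n+1} L(f, χ⁻¹, 1) / (τ(χ⁻¹) Ω)` for the characters `χ` of
  conductor `p^{n+1}` with tame part `ψ`; here `j` embeds the algebraic numbers in `ℂ_p`. -/
  chi : ∀ (n : ℕ) (χ : DirichletCharacter Qbar (p ^ (n + 1))), χ.IsPrimitive →
    ∀ j : Qbar →+* ℂ_[p], (∀ b : ℕ, b ^ (p - 1) ≡ 1 [MOD p ^ (n + 1)] →
      j (χ (b : ZMod (p ^ (n + 1)))) =
        algebraMap ℚ_[p] ℂ_[p] ((ψ (b : ZMod p) : ℤ_[p]) : ℚ_[p])) → ∃ v : Qbar,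
      IsLValue (fun k => ((χ⁻¹ (k : ZMod (p ^ (n + 1))) : Qbar) : ℂ) * (a k : ℂ))
        ((v : ℂ) * Ω * gaussSum (χ⁻¹.ringHomComp (algebraMap Qbar ℂ)) ZMod.stdAddChar /
          (p : ℂ) ^ (n + 1)) ∧
      HasSum (fun i => algebraMap ℚ_[p] ℂ_[p] (PowerSeries.coeff i L) *
          (j (χ ((1 + p : ℕ) : ZMod (p ^ (n + 1)))) - 1) ^ i)
        (algebraMap ℚ_[p] ℂ_[p] (((α⁻¹ : ℤ_[p]ˣ) : ℤ_[p]) : ℚ_[p]) ^ (n + 1) * j v)

/-- `f = ∑ a(n) q^n` is a cusp form of weight two for `Γ₀(N)` whose `L`-series is that of the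
elliptic curve `E`, which has good reduction at the primes that do not divide `N`. -/
structure IsFormOf (E : WeierstrassCurve ℤ) {N : ℕ} (f : CuspForm (Gamma0 N) 2)
    (a : ℕ → ℤ) : Prop where
  /-- the `q`-expansion of `f` is `∑ a(n) q^n` -/
  coeff : ∀ n, (qExpansion 1 f).coeff n = a n
  /-- `f` is normalised -/
  one : a 1 = 1
  /-- the Euler factors at the primes of good reduction -/
  good : ∀ l : ℕ, l.Prime → ¬ l ∣ N → ¬ (l : ℤ) ∣ E.Δ ∧
    a l = l - Nat.card {P : ZMod l × ZMod l //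
      (E.map (Int.castRingHom (ZMod l))).toAffine.Equation P.1 P.2} ∧
    ∀ n : ℕ, a (l * n) + (if l ∣ n then (l : ℤ) * a (n / l) else 0) = a l * a n
  /-- the Euler factors at the primes which divide `N` -/
  bad : ∀ l : ℕ, l.Prime → l ∣ N → |a l| ≤ 1 ∧ ∀ n : ℕ, a (l * n) = a l * a n

theorem isMSD_iff (p : ℕ) [Fact p.Prime] (a : ℕ → ℤ) (Ω : ℝ) (α : ℤ_[p]ˣ)
    (ψ : DirichletCharacter ℤ_[p] p) (L : PowerSeries ℚ_[p]) :
    IsMSD p a Ω α ψ L ↔ Pool.Agent.MZ.Per.IsMSDBr p a Ω α ψ L :=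
  ⟨fun h => ⟨h.bdd, h.one, h.chi⟩, fun h => ⟨h.bdd, h.one, h.chi⟩⟩

open Classical in
theorem result {N : ℕ} (hN : N ≠ 0) (E : WeierstrassCurve ℤ) (f : CuspForm (Gamma0 N) 2)
    (a : ℕ → ℤ) (hf : IsFormOf E f a) (Ω : ℝ) (hΩ : Ω ≠ 0) (q : ℚ) (hq : q ≠ 0)
    (hper : {r : ℝ | ∃ γ ∈ Gamma1 N, r = (period f γ).re} =
      {r : ℝ | ∃ k : ℤ, r = k * (q * Ω)}) :
    ∃ (C : ℝ) (p₀ : ℕ), ∀ (p : ℕ) [Fact p.Prime], p₀ ≤ p → ¬ (p : ℤ) ∣ a p →
      ∃ α : ℤ_[p]ˣ, (α : ℤ_[p]) ^ 2 - (a p : ℤ_[p]) * α + p = 0 ∧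
        ∃ L : DirichletCharacter ℤ_[p] p → PowerSeries ℤ_[p],
          -- the even branches, which are integral
          (∀ ψ, ψ (-1) = 1 → ∀ L', IsMSD p a Ω α ψ L' ↔
            L' = (L ψ).map (algebraMap ℤ_[p] ℚ_[p])) ∧
          -- the inequality
          (∀ K : Subgroup (ZMod p)ˣ, -1 ∈ K → ∀ e : DirichletCharacter ℤ_[p] p → ℕ,
            (∀ ψ : DirichletCharacter ℤ_[p] p, (∀ k ∈ K, ψ (k : ZMod p) = 1) →
              L ψ ∈ Ideal.span {(p : PowerSeries ℤ_[p]) ^ e ψ,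
                (1 + PowerSeries.X) ^ (p ^ 41) - 1}) →
            (p : ℝ) ^ (∑ ψ ∈ univ.filter (fun ψ : DirichletCharacter ℤ_[p] p =>
              ∀ k ∈ K, ψ (k : ZMod p) = 1), e ψ) ≤
                (C * p * Real.log p / √K.index) ^ K.index) ∧
          -- the trivial branch
          L 1 ∉ Ideal.span {(p : PowerSeries ℤ_[p]) ^ 2, (1 + PowerSeries.X) ^ (p ^ 41) - 1} ∧
          -- the number of branches with `μ = 0` and `λ < p^41`
          ∀ K : Subgroup (ZMod p)ˣ, -1 ∈ K →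
            (Real.log K.index / (2 * Real.log p) -
              C * Real.log (Real.log p) / Real.log p) * K.index ≤
            ((univ.filter (fun ψ : DirichletCharacter ℤ_[p] p => (∀ k ∈ K, ψ (k : ZMod p) = 1) ∧
              ∃ i < p ^ 41, IsUnit (PowerSeries.coeff i (L ψ)))).card : ℝ) := by
  have hNZ : NeZero N := ⟨hN⟩
  have ha0 : a 0 = 0 := by
    exact_mod_cast Pool.Agent.MZ.Per.coeff_zero f (a := fun n => ((a n : ℤ) : ℂ)) hf.coeff
  have hH : Pool.Agent.MU1.HeckeAll N a := by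
    intro l hl n
    by_cases hlN : l ∣ N
    · simp only [hlN, not_true_eq_false, and_false, if_false, add_zero]
      exact (hf.bad l hl hlN).2 n
    · simp only [hlN, not_false_eq_true, and_true]
      exact (hf.good l hl hlN).2.2 n
  have hhas : ∀ n : ℕ, |(a n : ℝ)| ≤ n.divisors.card * √(n : ℝ) := by
    refine fun n => Pool.Agent.MU0.hasse_of_prime hf.one ha0 hH ?_
      (fun l hl hlN => (hf.bad l hl hlN).1) n
    intro l hl hlN
    have hF : Fact l.Prime := ⟨hl⟩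
    obtain ⟨h1, h2, -⟩ := hf.good l hl hlN
    have h3 := Pool.Agent.MU0.Hasse.hasse l (E.map (Int.castRingHom (ZMod l))) (by
      rw [WeierstrassCurve.map_Δ, eq_intCast, Ne, ZMod.intCast_zmod_eq_zero_iff_dvd]
      exact h1)
    rw [h2]
    exact h3
  obtain ⟨h, A, H⟩ := Pool.Agent.MU66.coef66 (N := N) ha0 hf.one
    (fun l hl hlN => (hf.good l hl hlN).2.2) hf.bad hhas
  obtain ⟨m, hm41⟩ : ∃ m : ℕ, m = 41 := ⟨41, rfl⟩
  obtain ⟨C, p₁, hC, hmain⟩ := Pool.Agent.MU66.final66 f hf.coeff hf.one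
    (fun l hl hlN n => (hf.good l hl hlN).2.2 n) hΩ q hq hper m (by omega)
    (Pool.Agent.MU66.nonv66 f hf.coeff H (m + 1) (by omega))
  obtain ⟨C', p₂, hcor⟩ := Pool.Agent.MU71.corollaries C
  subst hm41
  refine ⟨max C C', max p₁ (max p₂ 3), ?_⟩
  intro p hp hpp hord
  have hp1 : p₁ ≤ p := (le_max_left _ _).trans hpp
  have hp2 : p₂ ≤ p := (le_max_left p₂ 3).trans ((le_max_right _ _).trans hpp)
  have hp3 : 3 ≤ p := (le_max_right p₂ 3).trans ((le_max_right _ _).trans hpp)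
  obtain ⟨α, hα, L, hL, hbound⟩ := hmain p hp1 hord
  obtain ⟨hone, hcount⟩ := hcor p hp2 41 L hbound
  have hp3' : (3 : ℝ) ≤ p := by exact_mod_cast hp3
  have hlog1 : 1 ≤ Real.log p := by
    rw [Real.le_log_iff_exp_le (by linarith)]
    have := Real.exp_one_lt_d9
    linarith
  refine ⟨α, hα, L, ?_, ?_, hone, ?_⟩
  · intro ψ hψ L'
    obtain ⟨h1, h2⟩ := hL ψ hψ
    constructor
    · intro h3
      exact h2 L' ((isMSD_iff _ _ _ _ _ _).1 h3)
    · rintro rfl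
      exact (isMSD_iff _ _ _ _ _ _).2 h1
  · intro K hK e he
    refine (hbound K hK e he).trans ?_
    gcongr
    exact le_max_left _ _
  · intro K hK
    refine le_trans ?_ (hcount K hK)
    gcongr
    · exact Real.log_nonneg hlog1
    · exact le_max_right _ _

end Pool.Agent.Results.MP_6b77c8_nt.MuBounds
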