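import Pool.Agent.MU0.Fin4
import Pool.Agent.MU0.HasseOfPrime

/-!
# The `μ`-invariant of the `p`-adic `L`-function of an elliptic curve vanishes for all large `p`

Let `E` be an elliptic curve over `ℚ`. For all but finitely many primes `p` of good ordinary
reduction the `p`-adic `L`-function `L_p(E)` of Mazur and Swinnerton-Dyer (in `Λ ⊗ ℚ`,
`Λ = ℤ_p[[T]]`) is an element of `Λ` which is not divisible by `p`, that is, its `μ`-invariant is
`0`; its `λ`-invariant is smaller than `p^(p^(1-c))` with a constant `c > 0`.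

Here `Ω` is the real period, or any real number such that the real parts of the periods of the form
`f` of `E` over `Γ₁(N)` are rational multiples of `Ω`. The inequality of Hasse is proved, and no
nonvanishing, no result on the distribution of the Hecke eigenvalues and no action of the Fricke
involution is assumed.
-/

set_option autoImplicit false

open UpperHalfPlane CongruenceSubgroup
open scoped MatrixGroups Real

namespace Pool.Agent.Results.MP_6b77c8_nt.MuZero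

/-- The period `2πi ∫ f(z) dz` over the segment from `i` to `γ i`. -/
noncomputable def period (f : ℍ → ℂ) (γ : SL(2, ℤ)) : ℂ :=
  2 * π * Complex.I * ∫ t in (0 : ℝ)..1,
    f (ofComplex (Complex.I + t * (((γ • UpperHalfPlane.I : ℍ) : ℂ) - Complex.I))) *
      (((γ • UpperHalfPlane.I : ℍ) : ℂ) - Complex.I)

/-- `v` is the value at `s = 1` of the entire continuation of the Dirichlet series
`∑ c(n) n^{-s}`, which converges for `Re s > 2`. -/
def IsLValue (c : ℕ → ℂ) (v : ℂ) : Prop :=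
  ∃ D : ℂ → ℂ, Differentiable ℂ D ∧ (∀ s : ℂ, 2 < s.re → LSeriesHasSum c s (D s)) ∧ D 1 = v

/-- The field of algebraic numbers in `ℂ`. -/
abbrev Qbar : Type := algebraicClosure ℚ ℂ

/-- `L` is the `p`-adic `L`-function of Mazur and Swinnerton-Dyer of the form with `q`-expansion
`∑ a(k) q^k`, for the period `Ω` and the unit root `α` of `x² - a(p) x + p`. -/
structure IsMSD (p : ℕ) [Fact p.Prime] (a : ℕ → ℤ) (Ω : ℝ) (α : ℤ_[p]ˣ)
    (L : PowerSeries ℚ_[p]) : Prop where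
  /-- `L` lies in `Λ ⊗ ℚ`. -/
  bdd : ∃ B : ℝ, ∀ i, ‖PowerSeries.coeff i L‖ ≤ B
  /-- `L(0) = (1 - α⁻¹)² L(f, 1) / Ω`. -/
  one : ∃ r : ℚ, IsLValue (fun k => (a k : ℂ)) ((r : ℂ) * Ω) ∧
    PowerSeries.coeff 0 L = (1 - (((α⁻¹ : ℤ_[p]ˣ) : ℤ_[p]) : ℚ_[p])) ^ 2 * (r : ℚ_[p])
  /-- `L(χ(1 + p) - 1) = α^{-(n+1)} p^{n+1} L(f, χ⁻¹, 1) / (τ(χ⁻¹) Ω)` for the characters `χ` of
  conductor `p^{n+1}` and of `p`-power order; here `j` embeds the algebraic numbers in `ℂ_p`. -/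
  chi : ∀ (n : ℕ) (χ : DirichletCharacter Qbar (p ^ (n + 1))), χ.IsPrimitive →
    (∃ k : ℕ, χ ^ (p ^ k) = 1) → ∀ j : Qbar →+* ℂ_[p], ∃ v : Qbar,
      IsLValue (fun k => ((χ⁻¹ (k : ZMod (p ^ (n + 1))) : Qbar) : ℂ) * (a k : ℂ))
        ((v : ℂ) * Ω * gaussSum (χ⁻¹.ringHomComp (algebraMap Qbar ℂ)) ZMod.stdAddChar /
          (p : ℂ) ^ (n + 1)) ∧
      HasSum (fun i => algebraMap ℚ_[p] ℂ_[p] (PowerSeries.coeff i L) *
          (j (χ ((1 + p : ℕ) : ZMod (p ^ (n + 1)))) - 1) ^ i)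
        (algebraMap ℚ_[p] ℂ_[p] (((α⁻¹ : ℤ_[p]ˣ) : ℤ_[p]) : ℚ_[p]) ^ (n + 1) * j v)

/-- `f = ∑ a(n) q^n` is a cusp form of weight two for `Γ₀(N)` whose `L`-series is that of the
elliptic curve `E`, which has good reduction at the primes that do not divide `N`. -/
structure IsFormOf (E : WeierstrassCurve ℤ) {N : ℕ} (f : CuspForm (Gamma0 N) 2)
    (a : ℕ → ℤ) : Prop where
  /-- the `q`-expansion of `f` is `∑ a(n) q^n` -/
  coeff : ∀ n, (qExpansion 1 f).coeff n = a n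
  /-- `f` is normalised -/
  one : a 1 = 1
  /-- the Euler factors at the primes of good reduction -/
  good : ∀ l : ℕ, l.Prime → ¬ l ∣ N → ¬ (l : ℤ) ∣ E.Δ ∧
    a l = l - Nat.card {P : ZMod l × ZMod l //
      (E.map (Int.castRingHom (ZMod l))).toAffine.Equation P.1 P.2} ∧
    ∀ n : ℕ, a (l * n) + (if l ∣ n then (l : ℤ) * a (n / l) else 0) = a l * a n
  /-- the Euler factors at the primes which divide `N` -/
  bad : ∀ l : ℕ, l.Prime → l ∣ N → |a l| ≤ 1 ∧ ∀ n : ℕ, a (l * n) = a l * a n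

theorem isMSD_iff (p : ℕ) [Fact p.Prime] (a : ℕ → ℤ) (Ω : ℝ) (α : ℤ_[p]ˣ)
    (L : PowerSeries ℚ_[p]) :
    IsMSD p a Ω α L ↔ Pool.Agent.MZ.Per.IsMSD p a Ω α L :=
  ⟨fun h => ⟨h.bdd, h.one, h.chi⟩, fun h => ⟨h.bdd, h.one, h.chi⟩⟩

theorem frm {N : ℕ} [NeZero N] {E : WeierstrassCurve ℤ} {f : CuspForm (Gamma0 N) 2}
    {a : ℕ → ℤ} (hf : IsFormOf E f a) : Pool.Agent.MU0.Frm f a := by
  have ha0 : a 0 = 0 := by
    exact_mod_cast Pool.Agent.MZ.Per.coeff_zero f (a := fun n => ((a n : ℤ) : ℂ)) hf.coeff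
  have hH : Pool.Agent.MU1.HeckeAll N a := by
    intro l hl n
    by_cases hlN : l ∣ N
    · simp only [hlN, not_true_eq_false, and_false, if_false, add_zero]
      exact (hf.bad l hl hlN).2 n
    · simp only [hlN, not_false_eq_true, and_true]
      exact (hf.good l hl hlN).2.2 n
  refine ⟨hf.coeff, hf.one, hH, fun n =>
    Pool.Agent.MU0.hasse_of_prime hf.one ha0 hH ?_ (fun l hl hlN => (hf.bad l hl hlN).1) n⟩
  intro l hl hlN
  have hF : Fact l.Prime := ⟨hl⟩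
  obtain ⟨h1, h2, -⟩ := hf.good l hl hlN
  have h3 := Pool.Agent.MU0.Hasse.hasse l (E.map (Int.castRingHom (ZMod l))) (by
    rw [WeierstrassCurve.map_Δ, eq_intCast, Ne, ZMod.intCast_zmod_eq_zero_iff_dvd]
    exact h1)
  rw [h2]
  exact h3

theorem result {N : ℕ} (hN : N ≠ 0) (E : WeierstrassCurve ℤ) (f : CuspForm (Gamma0 N) 2)
    (a : ℕ → ℤ) (hf : IsFormOf E f a) (Ω : ℝ) (hΩ : Ω ≠ 0)
    (hrat : ∀ γ ∈ Gamma1 N, ∃ r : ℚ, (period f γ).re = r * Ω) :
    ∃ (c : ℝ) (p₀ : ℕ), 0 < c ∧ ∀ (p : ℕ) [Fact p.Prime], p₀ ≤ p → ¬ (p : ℤ) ∣ a p →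
      ∃ α : ℤ_[p]ˣ, (α : ℤ_[p]) ^ 2 - (a p : ℤ_[p]) * α + p = 0 ∧
        ∃ L : PowerSeries ℤ_[p],
          -- the `p`-adic `L`-function, which is integral
          (∀ L', IsMSD p a Ω α L' ↔ L' = L.map (algebraMap ℤ_[p] ℚ_[p])) ∧
          -- `μ = 0`, and a bound for `λ`
          ∃ i : ℕ, (i : ℝ) < (p : ℝ) ^ ((p : ℝ) ^ (1 - c)) ∧
            IsUnit (PowerSeries.coeff i L) := by
  have hNZ : NeZero N := ⟨hN⟩
  obtain ⟨c, p₀, hc, hmain⟩ := Pool.Agent.MU0.mu_zero_rat f (frm hf) hΩ hrat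
  refine ⟨c, p₀, hc, ?_⟩
  intro p hp hpp hord
  obtain ⟨α, hα, L, hL, hi⟩ := hmain p hpp hord
  exact ⟨α, hα, L, fun L' => by rw [isMSD_iff]; exact hL L', hi⟩

end Pool.Agent.Results.MP_6b77c8_nt.MuZero
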